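import Mathlib

/-!
Weak reachability with respect to a rank function, and the bound on the density of shallow minors.
-/

set_option autoImplicit false

namespace Pool.Agent.H21.PE

open SimpleGraph

/-- `u` is weakly `s`-reachable from `v` with respect to the rank function `ρ`. -/
def WR {V : Type} (G : SimpleGraph V) (ρ : V → ℕ) (s : ℕ) (v u : V) : Prop :=
  ∃ w : G.Walk v u, w.length ≤ s ∧ ∀ x ∈ w.support, ρ u ≤ ρ x

/-- At most `f s` vertices are weakly `s`-reachable from each vertex. -/
def WB {V : Type} (G : SimpleGraph V) (ρ : V → ℕ) (f : ℕ → ℕ) : Prop :=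
  ∀ (s : ℕ) (v : V), ∃ S : Finset V, S.card ≤ f s ∧ ∀ u, WR G ρ s v u → u ∈ S

/-- A function which changes by at most `c` along the edges of a walk changes by at most `c` times the
length along the walk. -/
theorem walk_lip {V : Type} {G : SimpleGraph V} {u v : V} (w : G.Walk u v) (ψ : V → ℝ) (c : ℝ)
    (h : ∀ x y, x ∈ w.support → y ∈ w.support → G.Adj x y → |ψ x - ψ y| ≤ c) :
    |ψ u - ψ v| ≤ w.length * c := by
  induction w with
  | nil => simp
  | @cons a b d hab p ih =>
    have h1 := ih (fun x y hx hy hxy => h x y (by simp [hx]) (by simp [hy]) hxy)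
    have h2 := h a b (by simp) (by simp) hab
    have h3 : |ψ a - ψ d| ≤ |ψ a - ψ b| + |ψ b - ψ d| := abs_sub_le _ _ _
    rw [Walk.length_cons]
    push_cast
    nlinarith

theorem walk_lip_int {V : Type} {G : SimpleGraph V} {u v : V} (w : G.Walk u v) (ψ : V → ℤ)
    (h : ∀ x y, x ∈ w.support → y ∈ w.support → G.Adj x y → |ψ x - ψ y| ≤ 1) :
    |ψ u - ψ v| ≤ w.length := by
  induction w with
  | nil => simp
  | @cons a b d hab p ih =>
    have h1 := ih (fun x y hx hy hxy => h x y (by simp [hx]) (by simp [hy]) hxy)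
    have h2 := h a b (by simp) (by simp) hab
    have h3 : |ψ a - ψ d| ≤ |ψ a - ψ b| + |ψ b - ψ d| := abs_sub_le _ _ _
    rw [Walk.length_cons]
    push_cast
    linarith

/-- The number of edges of a depth `r` minor is bounded in terms of weak reachability. -/
theorem minor_bound {V : Type} [Finite V] (G : SimpleGraph V) (ρ : V → ℕ)
    (f : ℕ → ℕ) (hf : WB G ρ f) (r m : ℕ) (H : SimpleGraph (Fin m))
    (B : Fin m → Set V) (ctr : Fin m → V)
    (hdisj : ∀ i j, i ≠ j → Disjoint (B i) (B j))
    (hctr : ∀ i, ctr i ∈ B i)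
    (hrad : ∀ i, ∀ v ∈ B i, ∃ w : G.Walk (ctr i) v, w.length ≤ r ∧ ∀ x ∈ w.support, x ∈ B i)
    (hadj : ∀ i j, H.Adj i j → ∃ x ∈ B i, ∃ y ∈ B j, G.Adj x y) :
    Nat.card H.edgeSet ≤ f (4 * r + 1) * m := by
  classical
  -- the vertex of least rank of a branch set
  have hmin : ∀ i, ∃ x ∈ B i, ∀ y ∈ B i, ρ x ≤ ρ y := by
    intro i
    obtain ⟨x, hx, hx'⟩ := Set.exists_min_image (B i) ρ (Set.toFinite _) ⟨ctr i, hctr i⟩
    exact ⟨x, hx, hx'⟩
  choose mn hmn hmn' using hmin
  choose S hS hS' using hf (4 * r + 1)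
  -- distinct branch sets have different minima
  have hinj : ∀ i j, mn i = mn j → i = j := by
    intro i j hij
    by_contra hne
    exact (Set.disjoint_left.1 (hdisj i j hne)) (hmn i) (hij ▸ hmn j)
  -- adjacency gives weak reachability
  have hreach : ∀ i j, H.Adj i j → ρ (mn i) ≤ ρ (mn j) → mn i ∈ S (mn j) := by
    intro i j hij hle
    apply hS'
    obtain ⟨x, hx, y, hy, hxy⟩ := hadj i j hij
    obtain ⟨w1, hw1, hw1'⟩ := hrad j (mn j) (hmn j)
    obtain ⟨w2, hw2, hw2'⟩ := hrad j y hy
    obtain ⟨w3, hw3, hw3'⟩ := hrad i x hx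
    obtain ⟨w4, hw4, hw4'⟩ := hrad i (mn i) (hmn i)
    refine ⟨w1.reverse.append (w2.append (Walk.cons hxy.symm (w3.reverse.append w4))), ?_, ?_⟩
    · simp only [Walk.length_append, Walk.length_reverse, Walk.length_cons]
      omega
    · intro z hz
      have hz' : z ∈ B i ∨ z ∈ B j := by
        simp only [Walk.mem_support_append_iff, Walk.support_reverse, List.mem_reverse,
          Walk.support_cons, List.mem_cons] at hz
        rcases hz with h | h | h | h | h
        · exact Or.inr (hw1' z h)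
        · exact Or.inr (hw2' z h)
        · exact Or.inr (h ▸ hy)
        · exact Or.inl (hw3' z h)
        · exact Or.inl (hw4' z h)
      rcases hz' with h | h
      · exact hmn' i z h
      · exact hle.trans (hmn' j z h)
  -- encode the edges
  have henc : ∀ e : H.edgeSet, ∃ p : Fin m × Fin m, e.1 = s(p.1, p.2) ∧ H.Adj p.1 p.2 ∧
      ρ (mn p.1) ≤ ρ (mn p.2) := by
    rintro ⟨e, he⟩
    induction e using Sym2.ind with
    | _ a b =>
      have hab : H.Adj a b := he
      rcases le_total (ρ (mn a)) (ρ (mn b)) with h | h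
      · exact ⟨(a, b), rfl, hab, h⟩
      · exact ⟨(b, a), Sym2.eq_swap, hab.symm, h⟩
  choose p hp hp' hp'' using henc
  let T : Finset (Σ _ : Fin m, V) := Finset.univ.sigma (fun j => S (mn j))
  have hT : T.card ≤ f (4 * r + 1) * m := by
    rw [Finset.card_sigma]
    calc ∑ j : Fin m, (S (mn j)).card ≤ ∑ _j : Fin m, f (4 * r + 1) :=
          Finset.sum_le_sum (fun j _ => hS _)
      _ = f (4 * r + 1) * m := by simp [mul_comm]
  refine le_trans ?_ hT
  let F : H.edgeSet → T := fun e => ⟨⟨(p e).2, mn (p e).1⟩, by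
    simp only [T, Finset.mem_sigma, Finset.mem_univ, true_and]
    exact hreach _ _ (hp' e) (hp'' e)⟩
  have hF : Function.Injective F := by
    intro e e' h
    simp only [F, Subtype.mk.injEq, Sigma.mk.injEq] at h
    obtain ⟨h1, h2⟩ := h
    have h2' := hinj _ _ (eq_of_heq h2)
    apply Subtype.ext
    rw [hp e, hp e', h1, h2']
  calc Nat.card H.edgeSet ≤ Nat.card T := Nat.card_le_card_of_injective F hF
    _ = T.card := by simp

end Pool.Agent.H21.PE
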