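import Mathlib
import Pool.Agent.H21.PE.WReach

/-!
The bundle over a graph: every vertex `p` is replaced by a path with `2 ^ d p` vertices (thought of as
the dyadic intervals of length `2 ^ (- d p)`), and vertices over adjacent `p`, `q` are joined if one
of their dyadic intervals contains the other one.
-/

set_option autoImplicit false

namespace Pool.Agent.H21.PE

open SimpleGraph

/-- Vertices of the bundle. -/
abbrev BV {V : Type} (d : V → ℕ) : Type := {x : V × ℕ // x.2 < 2 ^ d x.1}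

/-- The bundle. -/
def Bun {V : Type} (G : SimpleGraph V) (d : V → ℕ) : SimpleGraph (BV d) where
  Adj x y := (x.1.1 = y.1.1 ∧ (x.1.2 + 1 = y.1.2 ∨ y.1.2 + 1 = x.1.2)) ∨
    (G.Adj x.1.1 y.1.1 ∧ ((d x.1.1 ≤ d y.1.1 ∧ y.1.2 / 2 ^ (d y.1.1 - d x.1.1) = x.1.2) ∨
      (d y.1.1 ≤ d x.1.1 ∧ x.1.2 / 2 ^ (d x.1.1 - d y.1.1) = y.1.2)))
  symm := ⟨by
    rintro x y (⟨h1, h2⟩ | ⟨h1, h2⟩)
    · exact Or.inl ⟨h1.symm, h2.symm⟩
    · exact Or.inr ⟨h1.symm, h2.symm⟩⟩
  loopless := ⟨by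
    rintro x (⟨_, h2⟩ | ⟨h1, _⟩)
    · omega
    · exact G.loopless.irrefl _ h1⟩

instance bvFinite {V : Type} [Finite V] (d : V → ℕ) : Finite (BV d) := by
  let F : BV d → (Σ p : V, Fin (2 ^ d p)) := fun x => ⟨x.1.1, ⟨x.1.2, x.2⟩⟩
  apply Finite.of_injective F
  rintro ⟨⟨a, b⟩, hx⟩ ⟨⟨a', b'⟩, hx'⟩ h
  simp only [F, Sigma.mk.injEq] at h
  obtain ⟨h1, h2⟩ := h
  subst h1
  simp only [heq_eq_eq, Fin.mk.injEq] at h2
  subst h2
  rfl

/-- The dyadic valuation, in the range of the numbers below `2 ^ D`. -/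
def vl (D z : ℕ) : ℕ := if z = 0 then D else padicValNat 2 z

/-- The rank of a vertex within its row: numbers divisible by higher powers of two come first. -/
def kap (D z : ℕ) : ℕ := (D - vl D z) * 2 ^ D + z

theorem vl_lt {D z : ℕ} (hz : z ≠ 0) (hz' : z < 2 ^ D) : vl D z < D := by
  rw [vl, if_neg hz]
  have h1 : 2 ^ padicValNat 2 z ∣ z := pow_padicValNat_dvd
  have h2 : 2 ^ padicValNat 2 z ≤ z := Nat.le_of_dvd (Nat.pos_of_ne_zero hz) h1
  exact (Nat.pow_lt_pow_iff_right (by norm_num : 1 < 2)).1 (lt_of_le_of_lt h2 hz')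

theorem vl_le {D z : ℕ} (hz' : z < 2 ^ D) : vl D z ≤ D := by
  by_cases hz : z = 0
  · simp [vl, hz]
  · exact (vl_lt hz hz').le

theorem le_vl {D z k : ℕ} (hk : k ≤ D) (h : 2 ^ k ∣ z) : k ≤ vl D z := by
  by_cases hz : z = 0
  · simp [vl, hz, hk]
  · rw [vl, if_neg hz]
    exact (padicValNat_dvd_iff_le hz).1 h

theorem odd_part {D z : ℕ} (hz : z ≠ 0) : ∃ m, z = 2 ^ vl D z * (2 * m + 1) := by
  rw [vl, if_neg hz]
  obtain ⟨m, hm⟩ : 2 ^ padicValNat 2 z ∣ z := pow_padicValNat_dvd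
  have h2 : ¬ 2 ^ (padicValNat 2 z + 1) ∣ z := by
    rw [padicValNat_dvd_iff_le hz]
    omega
  rcases Nat.even_or_odd m with ⟨t, ht⟩ | ⟨t, ht⟩
  · exfalso
    apply h2
    refine ⟨t, ?_⟩
    rw [pow_succ, hm]
    subst ht
    rw [← hm]
    nth_rewrite 1 [hm]
    ring
  · refine ⟨t, ?_⟩
    rw [← ht]
    exact hm

theorem kap_lt_of_vl {D z c : ℕ} (hc : c < 2 ^ D) (hvc : vl D z < vl D c) (hcD : vl D c ≤ D) :
    kap D c < kap D z := by
  unfold kap
  have h1 : D - vl D c + 1 ≤ D - vl D z := by omega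
  calc (D - vl D c) * 2 ^ D + c < (D - vl D c) * 2 ^ D + 2 ^ D := by omega
    _ = (D - vl D c + 1) * 2 ^ D := by ring
    _ ≤ (D - vl D z) * 2 ^ D := Nat.mul_le_mul_right _ h1
    _ ≤ _ := by omega

theorem kap_inj {D z c : ℕ} (hz : z < 2 ^ D) (hc : c < 2 ^ D) (h : kap D z = kap D c) : z = c := by
  unfold kap at h
  have h1 := congrArg (· % 2 ^ D) h
  simpa [Nat.add_mod, Nat.mod_eq_of_lt hz, Nat.mod_eq_of_lt hc] using h1

theorem kap_lt {D K z : ℕ} (hz : z < 2 ^ D) (hK : D ≤ K) : kap D z < 4 ^ K := by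
  unfold kap
  have h1 : D < 2 ^ D := Nat.lt_two_pow_self
  have h2 : D - vl D z + 1 ≤ 2 ^ D := by omega
  have h3 : (2 : ℕ) ^ D * 2 ^ D = 4 ^ D := by
    rw [← mul_pow]
    norm_num
  calc (D - vl D z) * 2 ^ D + z < (D - vl D z) * 2 ^ D + 2 ^ D := by omega
    _ = (D - vl D z + 1) * 2 ^ D := by ring
    _ ≤ 2 ^ D * 2 ^ D := Nat.mul_le_mul_right _ h2
    _ = 4 ^ D := h3
    _ ≤ 4 ^ K := Nat.pow_le_pow_right (by norm_num) hK

/-- The rank of the vertices of the bundle. -/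
def rk {V : Type} (ρ : V → ℕ) (d : V → ℕ) (K : ℕ) (x : BV d) : ℕ :=
  ρ x.1.1 * 4 ^ K + kap (d x.1.1) x.1.2

theorem rk_fst {V : Type} {ρ : V → ℕ} {d : V → ℕ} {K : ℕ} (hK : ∀ p, d p ≤ K) {x y : BV d}
    (h : rk ρ d K x ≤ rk ρ d K y) : ρ x.1.1 ≤ ρ y.1.1 := by
  unfold rk at h
  have h1 := kap_lt y.2 (hK y.1.1)
  have h2 : ρ x.1.1 * 4 ^ K < (ρ y.1.1 + 1) * 4 ^ K := by
    rw [add_mul, one_mul]
    omega
  have := Nat.lt_of_mul_lt_mul_right h2
  omega

theorem rk_inj {V : Type} {ρ : V → ℕ} (hρ : Function.Injective ρ) {d : V → ℕ} {K : ℕ}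
    (hK : ∀ p, d p ≤ K) : Function.Injective (rk ρ d K) := by
  rintro ⟨⟨a, b⟩, hx⟩ ⟨⟨a', b'⟩, hx'⟩ h
  have h1 : ρ a = ρ a' := le_antisymm (rk_fst hK h.le) (rk_fst hK h.ge)
  have h2 := hρ h1
  subst h2
  have h3 : kap (d a) b = kap (d a) b' := by
    simp only [rk] at h
    omega
  have h4 := kap_inj hx hx' h3
  subst h4
  rfl

open Classical in
/-- Records to the right. -/
theorem rec_right (D y s : ℕ) :
    ((Finset.range (2 ^ D)).filter (fun z => z ≠ 0 ∧ y < z ∧ z ≤ y + s ∧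
      (∀ c, y < c → c < z → kap D z < kap D c))).card ≤ Nat.log 2 s + 2 := by
  classical
  have hs : s < 2 ^ (Nat.log 2 s + 1) := Nat.lt_pow_succ_log_self (by norm_num) s
  have key : ∀ z, z < 2 ^ D → z ≠ 0 → y < z → (∀ c, y < c → c < z → kap D z < kap D c) →
      z ≤ y + 2 ^ vl D z := by
    intro z hz hz0 hyz hrec
    by_contra hcon
    push Not at hcon
    obtain ⟨m, hm⟩ := odd_part (D := D) hz0
    have hlt := vl_lt hz0 hz
    have h1 : 2 ^ (vl D z + 1) ∣ z - 2 ^ vl D z := by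
      refine ⟨m, ?_⟩
      have : z = 2 ^ (vl D z + 1) * m + 2 ^ vl D z := by
        conv_lhs => rw [hm]
        ring
      omega
    have h2 : vl D z + 1 ≤ vl D (z - 2 ^ vl D z) := le_vl hlt h1
    have h3 := hrec (z - 2 ^ vl D z) (by omega) (by have := Nat.pos_of_ne_zero (pow_ne_zero (vl D z) (by norm_num : (2 : ℕ) ≠ 0)); omega)
    have h4 : kap D (z - 2 ^ vl D z) < kap D z :=
      kap_lt_of_vl (by omega) (by omega) (vl_le (by omega))
    omega
  have hmap : ∀ z ∈ ((Finset.range (2 ^ D)).filter (fun z => z ≠ 0 ∧ y < z ∧ z ≤ y + s ∧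
      (∀ c, y < c → c < z → kap D z < kap D c))),
      min (vl D z) (Nat.log 2 s + 1) ∈ Finset.range (Nat.log 2 s + 2) := by
    intro z _
    rw [Finset.mem_range]
    omega
  have hcard := Finset.card_le_card_of_injOn (fun z => min (vl D z) (Nat.log 2 s + 1)) hmap ?_
  · simpa using hcard
  · have main : ∀ z z', z < 2 ^ D → z' < 2 ^ D → z ≠ 0 → z' ≠ 0 → y < z → y < z' → z ≤ y + s →
        z' ≤ y + s → (∀ c, y < c → c < z → kap D z < kap D c) →
        (∀ c, y < c → c < z' → kap D z' < kap D c) →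
        min (vl D z) (Nat.log 2 s + 1) = min (vl D z') (Nat.log 2 s + 1) → z < z' → False := by
      intro z z' hz hz' hz0 hz0' hyz hyz' hzs hzs' hr hr' hmin hlt
      have k2 := key z' hz' hz0' hyz' hr'
      rcases lt_or_ge (vl D z) (Nat.log 2 s + 1) with hcase | hcase
      · have hv : vl D z = vl D z' := by omega
        obtain ⟨m, hm⟩ := odd_part (D := D) hz0
        obtain ⟨m', hm'⟩ := odd_part (D := D) hz0'
        rw [← hv] at hm' k2
        have hmm : m < m' := by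
          by_contra hcon
          push Not at hcon
          have : 2 ^ vl D z * (2 * m' + 1) ≤ 2 ^ vl D z * (2 * m + 1) :=
            Nat.mul_le_mul_left _ (by omega)
          omega
        have h5 : 2 ^ vl D z * (2 * m + 1 + 2) ≤ 2 ^ vl D z * (2 * m' + 1) :=
          Nat.mul_le_mul_left _ (by omega)
        have h6 : 2 ^ vl D z * (2 * m + 1 + 2) = 2 ^ vl D z * (2 * m + 1) + 2 ^ vl D z * 2 := by
          ring
        have h7 : 0 < 2 ^ vl D z := pow_pos (by norm_num) _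
        omega
      · have hv : Nat.log 2 s + 1 ≤ vl D z' := by omega
        obtain ⟨m, hm⟩ := odd_part (D := D) hz0
        obtain ⟨m', hm'⟩ := odd_part (D := D) hz0'
        have d1 : 2 ^ (Nat.log 2 s + 1) ∣ z := by
          rw [hm]
          exact Dvd.dvd.mul_right (pow_dvd_pow 2 hcase) _
        have d2 : 2 ^ (Nat.log 2 s + 1) ∣ z' := by
          rw [hm']
          exact Dvd.dvd.mul_right (pow_dvd_pow 2 hv) _
        have d3 : 2 ^ (Nat.log 2 s + 1) ∣ z' - z := Nat.dvd_sub d2 d1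
        have d4 := Nat.le_of_dvd (by omega) d3
        omega
    intro z hz z' hz' h
    simp only [Finset.coe_filter, Finset.mem_range, Set.mem_ofPred_eq] at hz hz'
    rcases lt_trichotomy z z' with hlt | heq | hgt
    · exact (main z z' hz.1 hz'.1 hz.2.1 hz'.2.1 hz.2.2.1 hz'.2.2.1 hz.2.2.2.1 hz'.2.2.2.1
        hz.2.2.2.2 hz'.2.2.2.2 h hlt).elim
    · exact heq
    · exact (main z' z hz'.1 hz.1 hz'.2.1 hz.2.1 hz'.2.2.1 hz.2.2.1 hz'.2.2.2.1 hz.2.2.2.1
        hz'.2.2.2.2 hz.2.2.2.2 h.symm hgt).elim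

open Classical in
/-- Records to the left. -/
theorem rec_left (D y s : ℕ) (hy : y < 2 ^ D) :
    ((Finset.range (2 ^ D)).filter (fun z => z ≠ 0 ∧ z < y ∧ y ≤ z + s ∧
      (∀ c, z < c → c < y → kap D z < kap D c))).card ≤ Nat.log 2 s + 2 := by
  classical
  have hs : s < 2 ^ (Nat.log 2 s + 1) := Nat.lt_pow_succ_log_self (by norm_num) s
  have key : ∀ z, z < 2 ^ D → z ≠ 0 → z < y → (∀ c, z < c → c < y → kap D z < kap D c) →
      y ≤ z + 2 ^ vl D z := by
    intro z hz hz0 hyz hrec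
    by_contra hcon
    push Not at hcon
    obtain ⟨m, hm⟩ := odd_part (D := D) hz0
    have hlt := vl_lt hz0 hz
    have h1 : 2 ^ (vl D z + 1) ∣ z + 2 ^ vl D z := by
      refine ⟨m + 1, ?_⟩
      have : z = 2 ^ (vl D z + 1) * m + 2 ^ vl D z := by
        conv_lhs => rw [hm]
        ring
      have h' : 2 ^ (vl D z + 1) = 2 ^ vl D z + 2 ^ vl D z := by ring
      rw [mul_add, mul_one]
      omega
    have h2 : vl D z + 1 ≤ vl D (z + 2 ^ vl D z) := le_vl hlt h1
    have h3 := hrec (z + 2 ^ vl D z) (by have := Nat.pos_of_ne_zero (pow_ne_zero (vl D z) (by norm_num : (2 : ℕ) ≠ 0)); omega) (by omega)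
    have h4 : kap D (z + 2 ^ vl D z) < kap D z :=
      kap_lt_of_vl (by omega) (by omega) (vl_le (by omega))
    omega
  have hmap : ∀ z ∈ ((Finset.range (2 ^ D)).filter (fun z => z ≠ 0 ∧ z < y ∧ y ≤ z + s ∧
      (∀ c, z < c → c < y → kap D z < kap D c))),
      min (vl D z) (Nat.log 2 s + 1) ∈ Finset.range (Nat.log 2 s + 2) := by
    intro z _
    rw [Finset.mem_range]
    omega
  have hcard := Finset.card_le_card_of_injOn (fun z => min (vl D z) (Nat.log 2 s + 1)) hmap ?_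
  · simpa using hcard
  · have main : ∀ z z', z < 2 ^ D → z' < 2 ^ D → z ≠ 0 → z' ≠ 0 → z < y → z' < y → y ≤ z + s →
        y ≤ z' + s → (∀ c, z < c → c < y → kap D z < kap D c) →
        (∀ c, z' < c → c < y → kap D z' < kap D c) →
        min (vl D z) (Nat.log 2 s + 1) = min (vl D z') (Nat.log 2 s + 1) → z < z' → False := by
      intro z z' hz hz' hz0 hz0' hyz hyz' hzs hzs' hr hr' hmin hlt
      have k2 := key z hz hz0 hyz hr
      rcases lt_or_ge (vl D z) (Nat.log 2 s + 1) with hcase | hcase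
      · have hv : vl D z = vl D z' := by omega
        obtain ⟨m, hm⟩ := odd_part (D := D) hz0
        obtain ⟨m', hm'⟩ := odd_part (D := D) hz0'
        rw [← hv] at hm'
        have hmm : m < m' := by
          by_contra hcon
          push Not at hcon
          have : 2 ^ vl D z * (2 * m' + 1) ≤ 2 ^ vl D z * (2 * m + 1) :=
            Nat.mul_le_mul_left _ (by omega)
          omega
        have h5 : 2 ^ vl D z * (2 * m + 1 + 2) ≤ 2 ^ vl D z * (2 * m' + 1) :=
          Nat.mul_le_mul_left _ (by omega)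
        have h6 : 2 ^ vl D z * (2 * m + 1 + 2) = 2 ^ vl D z * (2 * m + 1) + 2 ^ vl D z * 2 := by
          ring
        have h7 : 0 < 2 ^ vl D z := pow_pos (by norm_num) _
        omega
      · have hv : Nat.log 2 s + 1 ≤ vl D z' := by omega
        obtain ⟨m, hm⟩ := odd_part (D := D) hz0
        obtain ⟨m', hm'⟩ := odd_part (D := D) hz0'
        have d1 : 2 ^ (Nat.log 2 s + 1) ∣ z := by
          rw [hm]
          exact Dvd.dvd.mul_right (pow_dvd_pow 2 hcase) _
        have d2 : 2 ^ (Nat.log 2 s + 1) ∣ z' := by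
          rw [hm']
          exact Dvd.dvd.mul_right (pow_dvd_pow 2 hv) _
        have d3 : 2 ^ (Nat.log 2 s + 1) ∣ z' - z := Nat.dvd_sub d2 d1
        have d4 := Nat.le_of_dvd (by omega) d3
        omega
    intro z hz z' hz' h
    simp only [Finset.coe_filter, Finset.mem_range, Set.mem_ofPred_eq] at hz hz'
    rcases lt_trichotomy z z' with hlt | heq | hgt
    · exact (main z z' hz.1 hz'.1 hz.2.1 hz'.2.1 hz.2.2.1 hz'.2.2.1 hz.2.2.2.1 hz'.2.2.2.1
        hz.2.2.2.2 hz'.2.2.2.2 h hlt).elim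
    · exact heq
    · exact (main z' z hz'.1 hz.1 hz'.2.1 hz.2.1 hz'.2.2.1 hz.2.2.1 hz'.2.2.2.1 hz.2.2.2.1
        hz'.2.2.2.2 hz.2.2.2.2 h.symm hgt).elim

end Pool.Agent.H21.PE
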