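import Mathlib
import Pool.Agent.H21.PE.Bundle

/-!
Weak reachability in the bundle.
-/

set_option autoImplicit false

namespace Pool.Agent.H21.PE

open SimpleGraph

variable {V : Type}

/-- The position of a vertex at the coarser resolution `b`. -/
def pj (d : V → ℕ) (b : ℕ) (x : BV d) : ℕ := x.1.2 / 2 ^ (d x.1.1 - b)

theorem pj_adj {G : SimpleGraph V} {d : V → ℕ} {b : ℕ} {x y : BV d} (h : (Bun G d).Adj x y)
    (hx : b ≤ d x.1.1) (hy : b ≤ d y.1.1) : pj d b x ≤ pj d b y + 1 ∧ pj d b y ≤ pj d b x + 1 := by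
  rcases h with ⟨h1, h2⟩ | ⟨_, h2⟩
  · unfold pj
    rw [h1]
    generalize hk : 2 ^ (d y.1.1 - b) = k
    have hk0 : 0 < k := by rw [← hk]; positivity
    have e1 : ∀ z : ℕ, z / k ≤ (z + 1) / k := fun z => Nat.div_le_div_right (by omega)
    have e2 : ∀ z : ℕ, (z + 1) / k ≤ z / k + 1 := by
      intro z
      calc (z + 1) / k ≤ (z + k) / k := Nat.div_le_div_right (by omega)
        _ = z / k + 1 := by rw [Nat.add_div_right _ hk0]
    rcases h2 with h2 | h2
    · rw [← h2]
      exact ⟨(e1 _).trans (by omega), e2 _⟩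
    · rw [← h2]
      exact ⟨e2 _, (e1 _).trans (by omega)⟩
  · rcases h2 with ⟨h3, h4⟩ | ⟨h3, h4⟩
    · have : pj d b x = pj d b y := by
        unfold pj
        rw [← h4, Nat.div_div_eq_div_mul, ← pow_add]
        congr 2
        omega
      omega
    · have : pj d b y = pj d b x := by
        unfold pj
        rw [← h4, Nat.div_div_eq_div_mul, ← pow_add]
        congr 2
        omega
      omega

theorem pj_self {d : V → ℕ} (x : BV d) : pj d (d x.1.1) x = x.1.2 := by simp [pj]

theorem pj_pj {d : V → ℕ} {a b : ℕ} {x : BV d} (hab : a ≤ b) (hb : b ≤ d x.1.1) :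
    pj d b x / 2 ^ (b - a) = pj d a x := by
  unfold pj
  rw [Nat.div_div_eq_div_mul, ← pow_add]
  congr 2
  omega

/-- Projection of a walk to the base. -/
theorem proj_walk {G : SimpleGraph V} {d : V → ℕ} {x y : BV d} (w : (Bun G d).Walk x y) :
    ∃ w' : G.Walk x.1.1 y.1.1, w'.length ≤ w.length ∧
      ∀ z ∈ w'.support, ∃ t ∈ w.support, t.1.1 = z := by
  induction w with
  | @nil a => exact ⟨Walk.nil, le_refl _, by
      intro z hz
      simp only [Walk.support_nil, List.mem_singleton] at hz
      exact ⟨a, by simp, hz.symm⟩⟩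
  | @cons a b c hab p ih =>
    obtain ⟨w', h1, h2⟩ := ih
    have hab' := hab
    rcases hab' with ⟨h3, _⟩ | ⟨h3, _⟩
    · refine ⟨w'.copy h3.symm rfl, ?_, ?_⟩
      · rw [Walk.length_copy, Walk.length_cons]
        omega
      · intro z hz
        rw [Walk.support_copy] at hz
        obtain ⟨t, ht, ht'⟩ := h2 z hz
        exact ⟨t, by simp [ht], ht'⟩
    · refine ⟨Walk.cons h3 w', ?_, ?_⟩
      · rw [Walk.length_cons, Walk.length_cons]
        omega
      · intro z hz
        rw [Walk.support_cons, List.mem_cons] at hz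
        rcases hz with hz | hz
        · exact ⟨a, by simp, hz.symm⟩
        · obtain ⟨t, ht, ht'⟩ := h2 z hz
          exact ⟨t, by simp [ht], ht'⟩

/-- If a walk in the part of the bundle above the row of `u` avoids the vertex `c` of this row, and has
its ends on different sides of `c`, then it is long. -/
theorem long_walk {G : SimpleGraph V} {d : V → ℕ} {x y : BV d} (w : (Bun G d).Walk x y)
    (p : V) (g c : ℕ)
    (hrow : ∀ z ∈ w.support, z.1.1 ≠ p → d p + g ≤ d z.1.1)
    (hc : ∀ z ∈ w.support, z.1.1 = p → z.1.2 ≠ c)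
    (hx : pj d (d p) x < c) (hy : c < pj d (d p) y) : 2 ^ g ≤ w.length := by
  classical
  have hG : (0 : ℕ) < 2 ^ g := by positivity
  let ψ : BV d → ℤ := fun z => if z.1.1 = p then (if z.1.2 < c then ((c * 2 ^ g : ℕ) : ℤ) else (((c + 1) * 2 ^ g : ℕ) : ℤ))
    else max ((c * 2 ^ g : ℕ) : ℤ) (min (((c + 1) * 2 ^ g : ℕ) : ℤ) (pj d (d p + g) z : ℤ))
  have hlow : ∀ z ∈ w.support, pj d (d p) z < c → ψ z = ((c * 2 ^ g : ℕ) : ℤ) := by
    intro z hz hzc
    by_cases hzp : z.1.1 = p
    · have : pj d (d p) z = z.1.2 := by rw [← hzp]; exact pj_self z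
      simp only [ψ, hzp, if_true]
      rw [if_pos (by omega)]
    · simp only [ψ, if_neg hzp]
      have h1 := pj_pj (x := z) (show d p ≤ d p + g by omega) (hrow z hz hzp)
      rw [Nat.add_sub_cancel_left] at h1
      have h2 : pj d (d p + g) z < c * 2 ^ g := by
        rw [← h1] at hzc
        exact (Nat.div_lt_iff_lt_mul hG).1 hzc
      have h3 : c * 2 ^ g ≤ (c + 1) * 2 ^ g := Nat.mul_le_mul_right _ (by omega)
      rw [max_eq_left]
      exact (min_le_right _ _).trans (by exact_mod_cast h2.le)
  have hhigh : ∀ z ∈ w.support, c < pj d (d p) z → ψ z = (((c + 1) * 2 ^ g : ℕ) : ℤ) := by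
    intro z hz hzc
    by_cases hzp : z.1.1 = p
    · have : pj d (d p) z = z.1.2 := by rw [← hzp]; exact pj_self z
      simp only [ψ, hzp, if_true]
      rw [if_neg (by omega)]
    · simp only [ψ, if_neg hzp]
      have h1 := pj_pj (x := z) (show d p ≤ d p + g by omega) (hrow z hz hzp)
      rw [Nat.add_sub_cancel_left] at h1
      have h2 : (c + 1) * 2 ^ g ≤ pj d (d p + g) z := by
        rw [← h1] at hzc
        exact (Nat.le_div_iff_mul_le hG).1 hzc
      have h3 : c * 2 ^ g ≤ (c + 1) * 2 ^ g := Nat.mul_le_mul_right _ (by omega)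
      rw [min_eq_left (by exact_mod_cast h2), max_eq_right (by exact_mod_cast h3)]
  have hlip : ∀ z z', z ∈ w.support → z' ∈ w.support → (Bun G d).Adj z z' → |ψ z - ψ z'| ≤ 1 := by
    -- a vertex of the row and a vertex above it
    have mixed : ∀ z z', z ∈ w.support → z' ∈ w.support → (Bun G d).Adj z z' → z.1.1 = p →
        z'.1.1 ≠ p → ψ z = ψ z' := by
      intro z z' hz hz' hadj hzp hzp'
      have hr := hrow z' hz' hzp'
      have hz2 : pj d (d p) z = z.1.2 := by rw [← hzp]; exact pj_self z
      have hz3 : pj d (d p) z' = z.1.2 := by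
        rcases hadj with ⟨h1, _⟩ | ⟨_, ⟨h1, h2⟩ | ⟨h1, h2⟩⟩
        · exact absurd (h1.symm.trans hzp) hzp'
        · rw [← hzp]
          exact h2
        · rw [hzp] at h1 h2
          have e1 : d z'.1.1 = d p := by omega
          rw [e1] at h2
          simp only [Nat.sub_self, pow_zero, Nat.div_one] at h2
          unfold pj
          rw [e1]
          simp [h2]
      have hzc := hc z hz hzp
      rcases lt_or_gt_of_ne hzc with h | h
      · rw [hlow z hz (by omega), hlow z' hz' (by omega)]
      · rw [hhigh z hz (by omega), hhigh z' hz' (by omega)]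
    intro z z' hz hz' hadj
    by_cases hzp : z.1.1 = p
    · by_cases hzp' : z'.1.1 = p
      · have hzc := hc z hz hzp
        have hzc' := hc z' hz' hzp'
        rcases hadj with ⟨_, h1⟩ | ⟨h1, _⟩
        · have : ψ z = ψ z' := by
            simp only [ψ, hzp, hzp', if_true]
            by_cases h2 : z.1.2 < c
            · rw [if_pos h2, if_pos (by omega)]
            · rw [if_neg h2, if_neg (by omega)]
          rw [this]
          simp
        · rw [hzp, hzp'] at h1
          exact absurd h1 (G.loopless.irrefl _)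
      · rw [mixed z z' hz hz' hadj hzp hzp']
        simp
    · by_cases hzp' : z'.1.1 = p
      · rw [← mixed z' z hz' hz hadj.symm hzp' hzp]
        simp
      · have h1 := pj_adj hadj (hrow z hz hzp) (hrow z' hz' hzp')
        simp only [ψ, if_neg hzp, if_neg hzp']
        rw [abs_le]
        constructor
        · omega
        · omega
  have h1 := walk_lip_int w ψ hlip
  rw [hlow x w.start_mem_support hx, hhigh y w.end_mem_support hy] at h1
  have h2 : ((c + 1) * 2 ^ g : ℕ) = c * 2 ^ g + 2 ^ g := by ring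
  rw [h2] at h1
  push_cast at h1
  rw [abs_le] at h1
  have h3 : ((2 : ℤ) ^ g) ≤ w.length := by linarith [h1.1]
  exact_mod_cast h3

/-- The bound on weak reachability in the bundle. -/
theorem bun_WB [Finite V] {G : SimpleGraph V} {ρ : V → ℕ} (hρ : Function.Injective ρ)
    {d : V → ℕ} {c0 K : ℕ} (hd : ∀ p, d p = c0 + ρ p ^ 2) (hK : ∀ p, d p ≤ K) {f : ℕ → ℕ}
    (hf : WB G ρ f) :
    WB (Bun G d) (rk ρ d K)
      (fun s => f s * (2 * Nat.log 2 s + 6) + Nat.log 2 s * (2 * s + 1)) := by
  classical
  have : Fintype (BV d) := Fintype.ofFinite _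
  intro s v
  obtain ⟨S, hS, hS'⟩ := hf s v.1.1
  -- position of `v` in the row of `p`
  let y0 : V → ℕ := fun p => pj d (d p) v
  let R : V → Finset ℕ := fun p =>
    if 2 ^ (2 * ρ p + 1) ≤ s then Finset.Icc (y0 p - s) (y0 p + s)
    else {y0 p, 0} ∪ (((Finset.range (2 ^ d p)).filter (fun z => z ≠ 0 ∧ y0 p < z ∧ z ≤ y0 p + s ∧
      (∀ c, y0 p < c → c < z → kap (d p) z < kap (d p) c))) ∪
      ((Finset.range (2 ^ d p)).filter (fun z => z ≠ 0 ∧ z < y0 p ∧ y0 p ≤ z + s ∧
      (∀ c, z < c → c < y0 p → kap (d p) z < kap (d p) c))))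
  have hy0 : ∀ p, d p ≤ d v.1.1 → y0 p < 2 ^ d p := by
    intro p hp
    simp only [y0, pj]
    rw [Nat.div_lt_iff_lt_mul (by positivity), ← pow_add]
    have : d p + (d v.1.1 - d p) = d v.1.1 := by omega
    rw [this]
    exact v.2
  have hRcard : ∀ p, d p ≤ d v.1.1 → (R p).card ≤
      (2 * Nat.log 2 s + 6) + (if 2 ^ (2 * ρ p + 1) ≤ s then 2 * s + 1 else 0) := by
    intro p hp
    simp only [R]
    split_ifs with h
    · rw [Nat.card_Icc]
      omega
    · refine (Finset.card_union_le _ _).trans ?_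
      have h1 : ({y0 p, 0} : Finset ℕ).card ≤ 2 := Finset.card_le_two
      have h2 := Finset.card_union_le
        ((Finset.range (2 ^ d p)).filter (fun z => z ≠ 0 ∧ y0 p < z ∧ z ≤ y0 p + s ∧
          (∀ c, y0 p < c → c < z → kap (d p) z < kap (d p) c)))
        ((Finset.range (2 ^ d p)).filter (fun z => z ≠ 0 ∧ z < y0 p ∧ y0 p ≤ z + s ∧
          (∀ c, z < c → c < y0 p → kap (d p) z < kap (d p) c)))
      have h3 := rec_right (d p) (y0 p) s
      have h4 := rec_left (d p) (y0 p) s (hy0 p hp)
      omega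
  let rows : V → Finset (BV d) := fun p =>
    Finset.univ.filter (fun x : BV d => x.1.1 = p ∧ x.1.2 ∈ R p)
  have hrows : ∀ p, (rows p).card ≤ (R p).card := by
    intro p
    apply Finset.card_le_card_of_injOn (fun x : BV d => x.1.2)
    · intro x hx
      simp only [rows, Finset.coe_filter, Finset.mem_univ, true_and, Set.mem_ofPred_eq] at hx
      exact hx.2
    · intro x hx x' hx' h
      simp only [rows, Finset.coe_filter, Finset.mem_univ, true_and, Set.mem_ofPred_eq] at hx hx'
      apply Subtype.ext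
      exact Prod.ext (hx.1.trans hx'.1.symm) h
  let S1 : Finset V := S.filter (fun p => d p ≤ d v.1.1)
  refine ⟨S1.biUnion rows, ?_, ?_⟩
  · have hS1 : S1.card ≤ f s := (Finset.card_filter_le _ _).trans hS
    have hbad : (S1.filter (fun p => 2 ^ (2 * ρ p + 1) ≤ s)).card ≤ Nat.log 2 s := by
      have : ∀ p ∈ S1.filter (fun p => 2 ^ (2 * ρ p + 1) ≤ s), ρ p ∈ Finset.range (Nat.log 2 s) := by
        intro p hp
        rw [Finset.mem_filter] at hp
        have h1 := Nat.le_log_of_pow_le (by norm_num : 1 < 2) hp.2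
        rw [Finset.mem_range]
        omega
      have h2 := Finset.card_le_card_of_injOn ρ this (fun a _ b _ h => hρ h)
      simpa using h2
    calc (S1.biUnion rows).card ≤ ∑ p ∈ S1, (rows p).card := Finset.card_biUnion_le
      _ ≤ ∑ p ∈ S1, ((2 * Nat.log 2 s + 6) + (if 2 ^ (2 * ρ p + 1) ≤ s then 2 * s + 1 else 0)) := by
          apply Finset.sum_le_sum
          intro p hp
          exact (hrows p).trans (hRcard p (Finset.mem_filter.1 hp).2)
      _ = S1.card * (2 * Nat.log 2 s + 6) +
          (S1.filter (fun p => 2 ^ (2 * ρ p + 1) ≤ s)).card * (2 * s + 1) := by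
          rw [Finset.sum_add_distrib, Finset.sum_const, smul_eq_mul, ← Finset.sum_filter,
            Finset.sum_const, smul_eq_mul]
      _ ≤ _ := Nat.add_le_add (Nat.mul_le_mul_right _ hS1) (Nat.mul_le_mul_right _ hbad)
  · intro u hu
    obtain ⟨w, hw, hw'⟩ := hu
    have hge : ∀ x ∈ w.support, ρ u.1.1 ≤ ρ x.1.1 := fun x hx => rk_fst hK (hw' x hx)
    have hgd : ∀ x ∈ w.support, d u.1.1 ≤ d x.1.1 := by
      intro x hx
      rw [hd, hd]
      have := Nat.pow_le_pow_left (hge x hx) 2
      omega
    have hpS : u.1.1 ∈ S1 := by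
      refine Finset.mem_filter.2 ⟨hS' _ ?_, hgd v w.start_mem_support⟩
      obtain ⟨w', h1, h2⟩ := proj_walk w
      refine ⟨w', h1.trans hw, ?_⟩
      intro z hz
      obtain ⟨t, ht, ht'⟩ := h2 z hz
      rw [← ht']
      exact hge t ht
    refine Finset.mem_biUnion.2 ⟨u.1.1, hpS, ?_⟩
    refine Finset.mem_filter.2 ⟨Finset.mem_univ _, rfl, ?_⟩
    -- the window
    have hwin : (y0 u.1.1 : ℤ) ≤ u.1.2 + s ∧ (u.1.2 : ℤ) ≤ y0 u.1.1 + s := by
      have h1 := walk_lip_int w (fun x => (pj d (d u.1.1) x : ℤ)) (by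
        intro x x' hx hx' hadj
        have := pj_adj hadj (hgd x hx) (hgd x' hx')
        rw [abs_le]
        constructor <;> omega)
      simp only [pj_self] at h1
      rw [abs_le] at h1
      have h2 : (w.length : ℤ) ≤ s := by exact_mod_cast hw
      simp only [y0]
      constructor <;> linarith [h1.1, h1.2]
    -- rows above
    have hrow : ∀ z ∈ w.support, z.1.1 ≠ u.1.1 → d u.1.1 + (2 * ρ u.1.1 + 1) ≤ d z.1.1 := by
      intro z hz hne
      have h1 : ρ u.1.1 + 1 ≤ ρ z.1.1 := lt_of_le_of_ne (hge z hz) (fun h => hne (hρ h).symm)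
      have h2 := Nat.pow_le_pow_left h1 2
      rw [hd, hd]
      have h3 : (ρ u.1.1 + 1) ^ 2 = ρ u.1.1 ^ 2 + (2 * ρ u.1.1 + 1) := by ring
      omega
    -- visited vertices of the row have larger rank
    have hrank : ∀ c, (∃ z ∈ w.support, z.1.1 = u.1.1 ∧ z.1.2 = c) → c ≠ u.1.2 →
        kap (d u.1.1) u.1.2 < kap (d u.1.1) c := by
      rintro c ⟨z, hz, hz1, hz2⟩ hcu
      have h1 := hw' z hz
      unfold rk at h1
      rw [hz1, hz2] at h1
      have h2 : kap (d u.1.1) u.1.2 ≤ kap (d u.1.1) c := by omega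
      refine lt_of_le_of_ne h2 (fun h => hcu ?_)
      refine (kap_inj u.2 ?_ h).symm
      rw [← hz2, ← hz1]
      exact z.2
    simp only [R]
    split_ifs with hcase
    · rw [Finset.mem_Icc]
      constructor <;> omega
    · push Not at hcase
      have hlen : w.length < 2 ^ (2 * ρ u.1.1 + 1) := lt_of_le_of_lt hw hcase
      rw [Finset.mem_union, Finset.mem_union, Finset.mem_filter, Finset.mem_filter]
      by_cases h0 : u.1.2 = 0
      · left
        simp [h0]
      rcases lt_trichotomy (y0 u.1.1) u.1.2 with hlt | heq | hgt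
      · right; left
        refine ⟨Finset.mem_range.2 u.2, h0, hlt, by omega, ?_⟩
        intro c hc1 hc2
        refine hrank c ?_ (by omega)
        by_contra hcon
        push Not at hcon
        have := long_walk w u.1.1 (2 * ρ u.1.1 + 1) c hrow (fun z hz hz1 hz2 => hcon z hz hz1 hz2)
          hc1 (by rw [pj_self]; exact hc2)
        omega
      · left
        simp [heq]
      · right; right
        refine ⟨Finset.mem_range.2 u.2, h0, hgt, by omega, ?_⟩
        intro c hc1 hc2
        refine hrank c ?_ (by omega)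
        by_contra hcon
        push Not at hcon
        have := long_walk w.reverse u.1.1 (2 * ρ u.1.1 + 1) c
          (fun z hz => hrow z (by simpa using hz))
          (fun z hz hz1 hz2 => hcon z (by simpa using hz) hz1 hz2)
          (by rw [pj_self]; exact hc1) hc2
        rw [Walk.length_reverse] at this
        omega

end Pool.Agent.H21.PE
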