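import Mathlib
import Pool.Agent.H21.PE.Reach
import Pool.Graph.R_seed8.Helper475.Miranda

/-!
Coarse cubes in graphs. A coarse `n`-cube with distant faces obstructs colourings with `n` colours
whose monochromatic pieces are bounded.
-/

set_option autoImplicit false

namespace Pool.Agent.H21.PE

open SimpleGraph

/-- A coarse `n`-cube: a map of `ℝ^n` (only the unit cube matters) to the vertices with near points going to
vertices at distance at most `r`, and opposite faces going to vertices at distance more than `D`. -/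
def Cube {V : Type} (G : SimpleGraph V) (n r D : ℕ) : Prop :=
  ∃ (g : (Fin n → ℝ) → V) (δ : ℝ), 0 < δ ∧
    (∀ x y : Fin n → ℝ, (∀ i, |x i - y i| ≤ δ) → G.edist (g x) (g y) ≤ (r : ℕ∞)) ∧
    ∀ (i : Fin n) (x y : Fin n → ℝ), x i ≤ 1 / 4 → 3 / 4 ≤ y i → (D : ℕ∞) < G.edist (g x) (g y)

theorem cube_color {V : Type} {G : SimpleGraph V} {n r D : ℕ} (h : Cube G n r D)
    (col : V → Fin n) :
    ∃ u v, Relation.ReflTransGen (fun x y => col x = col y ∧ G.edist x y ≤ (r : ℕ∞)) u v ∧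
      (D : ℕ∞) < G.edist u v := by
  classical
  obtain ⟨g, δ, hδ, hnear, hfar⟩ := h
  by_contra hcon
  push Not at hcon
  set Rl := Relation.ReflTransGen (fun x y => col x = col y ∧ G.edist x y ≤ (r : ℕ∞)) with hRl
  let Q : Fin n → Set (Fin n → ℝ) := fun i => {x | col (g x) = i ∧ ∃ y : Fin n → ℝ, y i ≤ 1 / 4 ∧
    Rl (g y) (g x)}
  let Q' : Fin n → Set (Fin n → ℝ) := fun i => {x | col (g x) = i ∧ ¬ ∃ y : Fin n → ℝ, y i ≤ 1 / 4 ∧
    Rl (g y) (g x)}
  let P : Fin n → Set (Fin n → ℝ) := fun i => {x | x i ≤ 0} ∪ Q i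
  let N : Fin n → Set (Fin n → ℝ) := fun i => {x | 1 ≤ x i} ∪ Q' i
  have hPne : ∀ i, (P i).Nonempty := fun i => ⟨fun _ => 0, Or.inl (le_refl (0 : ℝ))⟩
  have hNne : ∀ i, (N i).Nonempty := fun i => ⟨fun _ => 1, Or.inl (le_refl (1 : ℝ))⟩
  set ε : ℝ := min δ (1 / 4) with hε
  have hε0 : 0 < ε := by rw [hε]; positivity
  have hsep : ∀ i, ∀ x ∈ P i, ∀ y ∈ N i, ε ≤ dist x y := by
    intro i x hx y hy
    by_contra hlt
    push Not at hlt
    have hlt1 : ∀ j, |x j - y j| < ε := fun j => by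
      have := dist_le_pi_dist x y j
      rw [Real.dist_eq] at this
      exact lt_of_le_of_lt this hlt
    have hlt2 : ∀ j, |x j - y j| ≤ δ := fun j => (hlt1 j).le.trans (min_le_left _ _)
    have hlt3 : |x i - y i| < 1 / 4 := lt_of_lt_of_le (hlt1 i) (min_le_right _ _)
    rw [abs_lt] at hlt3
    rcases hx with hx | ⟨hx1, z, hz, hzx⟩
    · have hx' : x i ≤ 0 := hx
      rcases hy with hy | ⟨hy1, hy2⟩
      · have hy' : 1 ≤ y i := hy
        linarith [hlt3.1]
      · apply hy2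
        exact ⟨y, by linarith [hlt3.1], Relation.ReflTransGen.refl⟩
    · rcases hy with hy | ⟨hy1, hy2⟩
      · have hy' : 1 ≤ y i := hy
        have h1 := hfar i z x hz (by linarith [hlt3.1])
        exact absurd (hcon _ _ hzx) (not_le.2 h1)
      · apply hy2
        refine ⟨z, hz, hzx.tail ⟨?_, hnear x y hlt2⟩⟩
        rw [hx1, hy1]
  obtain ⟨x, hx1, hx2⟩ := Pool.Agent.Helper475.Miranda.poincare_miranda n
    (fun x i => Metric.infDist x (P i) - Metric.infDist x (N i))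
    (by
      apply Continuous.continuousOn
      apply continuous_pi
      intro i
      exact (Metric.continuous_infDist_pt _).sub (Metric.continuous_infDist_pt _))
    (by
      intro x _ i hi
      have : x ∈ P i := Or.inl hi.le
      have h1 := Metric.infDist_zero_of_mem this
      have h2 : 0 ≤ Metric.infDist x (N i) := Metric.infDist_nonneg
      simp only [h1]
      linarith)
    (by
      intro x _ i hi
      have : x ∈ N i := Or.inl hi.ge
      have h1 := Metric.infDist_zero_of_mem this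
      have h2 : 0 ≤ Metric.infDist x (P i) := Metric.infDist_nonneg
      simp only [h1]
      linarith)
  have hx3 := congrFun hx2 (col (g x))
  simp only [Pi.zero_apply] at hx3
  by_cases hmem : x ∈ Q (col (g x))
  · have h1 : x ∈ P (col (g x)) := Or.inr hmem
    rw [Metric.infDist_zero_of_mem h1] at hx3
    have h2 : ε ≤ Metric.infDist x (N (col (g x))) :=
      (Metric.le_infDist (hNne _)).2 (fun {y} hy => hsep _ x h1 y hy)
    linarith
  · have h1 : x ∈ N (col (g x)) := Or.inr ⟨rfl, fun h => hmem ⟨rfl, h⟩⟩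
    rw [Metric.infDist_zero_of_mem h1] at hx3
    have h2 : ε ≤ Metric.infDist x (P (col (g x))) :=
      (Metric.le_infDist (hPne _)).2 (fun {y} hy => by
        rw [_root_.dist_comm]
        exact hsep _ y hy x h1)
    linarith

theorem lt_edist {V : Type} {G : SimpleGraph V} {u v : V} {D : ℕ}
    (h : ∀ w : G.Walk u v, D < w.length) : (D : ℕ∞) < G.edist u v := by
  have h1 : ((D + 1 : ℕ) : ℕ∞) ≤ G.edist u v := by
    rw [SimpleGraph.edist]
    exact le_iInf (fun w => by exact_mod_cast h w)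
  refine lt_of_lt_of_le ?_ h1
  exact_mod_cast Nat.lt_succ_self D

/-- Position, truncated to the unit interval. -/
noncomputable def cl (K : ℕ) (θ : ℝ) : ℝ := max 0 (min θ (1 - 1 / 2 ^ K))

theorem cl_nonneg (K : ℕ) (θ : ℝ) : 0 ≤ cl K θ := le_max_left _ _

theorem cl_lt (K : ℕ) (θ : ℝ) : cl K θ < 1 := by
  have h : (0 : ℝ) < 1 / 2 ^ K := by positivity
  apply max_lt (by norm_num)
  exact lt_of_le_of_lt (min_le_right _ _) (by linarith)

theorem cl_lip (K : ℕ) (θ θ' : ℝ) : |cl K θ - cl K θ'| ≤ |θ - θ'| := by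
  unfold cl
  have h1 := abs_max_sub_max_le_abs (min θ (1 - 1 / 2 ^ K)) (min θ' (1 - 1 / 2 ^ K)) 0
  rw [max_comm 0, max_comm 0]
  refine h1.trans ?_
  have h2 := abs_min_sub_min_le_max θ (1 - 1 / 2 ^ K) θ' (1 - 1 / 2 ^ K)
  simpa using h2

/-- The vertex over `p` whose dyadic interval contains `θ`. -/
noncomputable def lft {V : Type} (d : V → ℕ) (K : ℕ) (θ : ℝ) (p : V) : BV d :=
  ⟨(p, ⌊cl K θ * 2 ^ d p⌋₊), by
    have h1 := cl_lt K θ
    have h2 := cl_nonneg K θ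
    have h3 : (0 : ℝ) < 2 ^ d p := by positivity
    rw [Nat.floor_lt (by positivity)]
    push_cast
    nlinarith⟩

theorem lft_adj {V : Type} {G : SimpleGraph V} {d : V → ℕ} {K : ℕ} (θ : ℝ) {p q : V}
    (h : G.Adj p q) : (Bun G d).Adj (lft d K θ p) (lft d K θ q) := by
  have main : ∀ p q : V, d p ≤ d q →
      ⌊cl K θ * 2 ^ d q⌋₊ / 2 ^ (d q - d p) = ⌊cl K θ * 2 ^ d p⌋₊ := by
    intro p q hpq
    have h1 := Nat.floor_div_natCast (cl K θ * 2 ^ d q) (2 ^ (d q - d p))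
    rw [← h1]
    congr 1
    push_cast
    have h2 : (2 : ℝ) ^ d q = 2 ^ d p * 2 ^ (d q - d p) := by
      rw [← pow_add]
      congr 1
      omega
    rw [h2]
    field_simp
  right
  refine ⟨h, ?_⟩
  rcases le_total (d p) (d q) with hpq | hpq
  · exact Or.inl ⟨hpq, main p q hpq⟩
  · exact Or.inr ⟨hpq, main q p hpq⟩

theorem lft_edist {V : Type} {G : SimpleGraph V} {d : V → ℕ} {K : ℕ} (θ : ℝ) (p q : V) :
    (Bun G d).edist (lft d K θ p) (lft d K θ q) ≤ G.edist p q := by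
  let F : G →g Bun G d := ⟨lft d K θ, fun {a b} h => lft_adj θ h⟩
  rw [SimpleGraph.edist.eq_def G p q]
  refine le_iInf (fun w => ?_)
  have h1 := SimpleGraph.edist_le (w.map F)
  rw [Walk.length_map] at h1
  exact h1

theorem lft_horizontal {V : Type} {G : SimpleGraph V} {d : V → ℕ} {K : ℕ} (hK : ∀ p, d p ≤ K)
    {θ θ' : ℝ} (h : |θ - θ'| ≤ 1 / 2 ^ K) (p : V) :
    (Bun G d).edist (lft d K θ p) (lft d K θ' p) ≤ 1 := by
  have h1 := (cl_lip K θ θ').trans h
  have h2 : |cl K θ * 2 ^ d p - cl K θ' * 2 ^ d p| ≤ 1 := by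
    rw [← sub_mul, abs_mul, abs_of_pos (by positivity : (0 : ℝ) < 2 ^ d p)]
    have h3 : (2 : ℝ) ^ d p ≤ 2 ^ K := pow_le_pow_right₀ (by norm_num) (hK p)
    calc |cl K θ - cl K θ'| * 2 ^ d p ≤ 1 / 2 ^ K * 2 ^ K :=
          mul_le_mul h1 h3 (by positivity) (by positivity)
      _ = 1 := by field_simp
  have hfl : ∀ a b : ℝ, 0 ≤ b → a ≤ b + 1 → ⌊a⌋₊ ≤ ⌊b⌋₊ + 1 := by
    intro a b hb hab
    have h4 := Nat.floor_le_floor hab
    have h5 := Nat.floor_add_one hb
    rw [h5] at h4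
    exact h4
  rw [abs_le] at h2
  have hn : ∀ θ : ℝ, 0 ≤ cl K θ * 2 ^ d p := fun θ => mul_nonneg (cl_nonneg K θ) (by positivity)
  have e1 := hfl _ _ (hn θ') (by linarith [h2.2] : cl K θ * 2 ^ d p ≤ cl K θ' * 2 ^ d p + 1)
  have e2 := hfl _ _ (hn θ) (by linarith [h2.1] : cl K θ' * 2 ^ d p ≤ cl K θ * 2 ^ d p + 1)
  by_cases heq : lft d K θ p = lft d K θ' p
  · rw [heq]
    simp
  · have hne : ⌊cl K θ * 2 ^ d p⌋₊ ≠ ⌊cl K θ' * 2 ^ d p⌋₊ := by
      intro h
      apply heq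
      apply Subtype.ext
      exact Prod.ext rfl h
    have hadj : (Bun G d).Adj (lft d K θ p) (lft d K θ' p) := by
      left
      refine ⟨rfl, ?_⟩
      change ⌊cl K θ * 2 ^ d p⌋₊ + 1 = ⌊cl K θ' * 2 ^ d p⌋₊ ∨
        ⌊cl K θ' * 2 ^ d p⌋₊ + 1 = ⌊cl K θ * 2 ^ d p⌋₊
      omega
    have := SimpleGraph.edist_le hadj.toWalk
    simpa using this

/-- The position of a vertex, as a real number. -/
noncomputable def phi {V : Type} (d : V → ℕ) (x : BV d) : ℝ := x.1.2 / 2 ^ d x.1.1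

theorem phi_adj {V : Type} {G : SimpleGraph V} {d : V → ℕ} {c0 : ℕ} (hc : ∀ p, c0 ≤ d p)
    {x y : BV d} (h : (Bun G d).Adj x y) : |phi d x - phi d y| ≤ 1 / 2 ^ c0 := by
  have hpow : ∀ p, (1 : ℝ) / 2 ^ d p ≤ 1 / 2 ^ c0 := fun p =>
    one_div_le_one_div_of_le (by positivity) (pow_le_pow_right₀ (by norm_num) (hc p))
  have hor : ∀ x y : BV d, x.1.1 = y.1.1 → x.1.2 + 1 = y.1.2 → |phi d x - phi d y| ≤ 1 / 2 ^ c0 := by
    intro x y h1 h2
    unfold phi
    rw [← h2, h1]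
    push_cast
    have : (x.1.2 : ℝ) / 2 ^ d y.1.1 - ((x.1.2 : ℝ) + 1) / 2 ^ d y.1.1 = - (1 / 2 ^ d y.1.1) := by
      ring
    rw [this, abs_neg, abs_of_pos (by positivity)]
    exact hpow _
  have ver : ∀ x y : BV d, d x.1.1 ≤ d y.1.1 → y.1.2 / 2 ^ (d y.1.1 - d x.1.1) = x.1.2 →
      |phi d x - phi d y| ≤ 1 / 2 ^ c0 := by
    intro x y h1 h2
    have h3 : (2 : ℝ) ^ d y.1.1 = 2 ^ d x.1.1 * 2 ^ (d y.1.1 - d x.1.1) := by
      rw [← pow_add]
      congr 1
      omega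
    have hpos : 0 < 2 ^ (d y.1.1 - d x.1.1) := by positivity
    have h4 : x.1.2 * 2 ^ (d y.1.1 - d x.1.1) ≤ y.1.2 := by
      rw [← h2]
      exact Nat.div_mul_le_self _ _
    have h5 : y.1.2 < (x.1.2 + 1) * 2 ^ (d y.1.1 - d x.1.1) := by
      rw [← h2]
      exact (Nat.div_lt_iff_lt_mul hpos).1 (Nat.lt_succ_self _)
    have h4' : (x.1.2 : ℝ) * 2 ^ (d y.1.1 - d x.1.1) ≤ y.1.2 := by exact_mod_cast h4
    have h5' : (y.1.2 : ℝ) < (x.1.2 + 1) * 2 ^ (d y.1.1 - d x.1.1) := by exact_mod_cast h5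
    unfold phi
    rw [h3]
    refine le_trans ?_ (hpow x.1.1)
    have ha : (0 : ℝ) < 2 ^ d x.1.1 := by positivity
    have hb : (0 : ℝ) < 2 ^ (d y.1.1 - d x.1.1) := by positivity
    rw [abs_le]
    constructor
    · rw [← sub_nonneg]
      have : (x.1.2 : ℝ) / 2 ^ d x.1.1 - y.1.2 / (2 ^ d x.1.1 * 2 ^ (d y.1.1 - d x.1.1)) -
          -(1 / 2 ^ d x.1.1) = ((x.1.2 + 1) * 2 ^ (d y.1.1 - d x.1.1) - y.1.2) /
          (2 ^ d x.1.1 * 2 ^ (d y.1.1 - d x.1.1)) := by
        field_simp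
        ring
      rw [this]
      apply div_nonneg (by linarith) (by positivity)
    · rw [← sub_nonneg]
      have : 1 / (2 : ℝ) ^ d x.1.1 - ((x.1.2 : ℝ) / 2 ^ d x.1.1 -
          y.1.2 / (2 ^ d x.1.1 * 2 ^ (d y.1.1 - d x.1.1))) =
          (2 ^ (d y.1.1 - d x.1.1) + (y.1.2 - x.1.2 * 2 ^ (d y.1.1 - d x.1.1))) /
          (2 ^ d x.1.1 * 2 ^ (d y.1.1 - d x.1.1)) := by
        field_simp
        ring
      rw [this]
      apply div_nonneg (by linarith) (by positivity)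
  rcases h with ⟨h1, h2 | h2⟩ | ⟨_, ⟨h1, h2⟩ | ⟨h1, h2⟩⟩
  · exact hor x y h1 h2
  · rw [abs_sub_comm]
    exact hor y x h1.symm h2
  · exact ver x y h1 h2
  · rw [abs_sub_comm]
    exact ver y x h1 h2

theorem bun_cube {V : Type} {G : SimpleGraph V} {n r D : ℕ} (h : Cube G n r D) {d : V → ℕ}
    {c0 K : ℕ} (hc : ∀ p, c0 ≤ d p) (hK : ∀ p, d p ≤ K) (hD : 2 * D + 4 ≤ 2 ^ c0) :
    Cube (Bun G d) (n + 1) (r + 1) D := by
  obtain ⟨g, δ, hδ, hnear, hfar⟩ := h
  refine ⟨fun x => lft d K (x 0) (g (Fin.tail x)), min δ (1 / 2 ^ K), by positivity, ?_, ?_⟩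
  · intro x y hxy
    have h1 : G.edist (g (Fin.tail x)) (g (Fin.tail y)) ≤ (r : ℕ∞) :=
      hnear _ _ (fun i => (hxy i.succ).trans (min_le_left _ _))
    have h2 := lft_horizontal (G := G) hK ((hxy 0).trans (min_le_right _ _)) (g (Fin.tail x))
    have h3 := (lft_edist (G := G) (d := d) (K := K) (y 0) (g (Fin.tail x)) (g (Fin.tail y))).trans h1
    calc _ ≤ _ := SimpleGraph.edist_triangle (v := lft d K (y 0) (g (Fin.tail x)))
      _ ≤ 1 + (r : ℕ∞) := add_le_add h2 h3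
      _ = ((r + 1 : ℕ) : ℕ∞) := by push_cast; ring
  · intro i x y hx hy
    refine lt_edist (fun w => ?_)
    refine Fin.cases (fun hx hy => ?_) (fun j hx hy => ?_) i hx hy
    · have h1 := walk_lip w (phi d) (1 / 2 ^ c0) (fun a b _ _ hab => phi_adj hc hab)
      have hc2 : c0 ≤ K := (hc (g (Fin.tail x))).trans (hK _)
      have hpc : (2 * D + 4 : ℝ) ≤ 2 ^ c0 := by exact_mod_cast hD
      have hpK : (4 : ℝ) ≤ 2 ^ K := by
        have : (2 : ℝ) ^ c0 ≤ 2 ^ K := pow_le_pow_right₀ (by norm_num) hc2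
        have : (0 : ℝ) ≤ D := by positivity
        linarith
      have h4K : (1 : ℝ) / 2 ^ K ≤ 1 / 4 := one_div_le_one_div_of_le (by norm_num) hpK
      have hx1 : phi d (lft d K (x 0) (g (Fin.tail x))) ≤ 1 / 4 := by
        unfold phi lft
        have h2 : cl K (x 0) ≤ 1 / 4 := max_le (by norm_num) ((min_le_left _ _).trans hx)
        have h3 := Nat.floor_le (mul_nonneg (cl_nonneg K (x 0))
          (by positivity : (0 : ℝ) ≤ 2 ^ d (g (Fin.tail x))))
        rw [div_le_iff₀ (by positivity)]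
        have h4 : (0 : ℝ) < 2 ^ d (g (Fin.tail x)) := by positivity
        nlinarith
      have hy1 : 3 / 4 - 1 / 2 ^ c0 ≤ phi d (lft d K (y 0) (g (Fin.tail y))) := by
        unfold phi lft
        have h2 : 3 / 4 ≤ cl K (y 0) := le_max_of_le_right (le_min hy (by linarith))
        have h3 := Nat.lt_floor_add_one (cl K (y 0) * 2 ^ d (g (Fin.tail y)))
        have h4 : (0 : ℝ) < 2 ^ d (g (Fin.tail y)) := by positivity
        have h5 : (1 : ℝ) / 2 ^ d (g (Fin.tail y)) ≤ 1 / 2 ^ c0 :=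
          one_div_le_one_div_of_le (by positivity) (pow_le_pow_right₀ (by norm_num) (hc _))
        rw [le_div_iff₀ h4]
        have h6 : 1 ≤ 1 / 2 ^ c0 * (2 : ℝ) ^ d (g (Fin.tail y)) := by
          rw [div_le_iff₀ h4] at h5
          exact h5
        dsimp only
        nlinarith
      have h2 : (1 : ℝ) / 2 - 1 / 2 ^ c0 ≤ w.length * (1 / 2 ^ c0) := by
        have h3 := neg_abs_le (phi d (lft d K (x 0) (g (Fin.tail x))) -
          phi d (lft d K (y 0) (g (Fin.tail y))))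
        linarith
      have h3 : (2 : ℝ) ^ c0 / 2 - 1 ≤ w.length := by
        have h4 : (0 : ℝ) < 2 ^ c0 := by positivity
        have h5 := mul_le_mul_of_nonneg_right h2 h4.le
        have h6 : (1 / 2 - 1 / 2 ^ c0) * (2 : ℝ) ^ c0 = 2 ^ c0 / 2 - 1 := by field_simp
        have h7 : ((w.length : ℝ) * (1 / 2 ^ c0)) * (2 : ℝ) ^ c0 = w.length := by field_simp
        linarith
      have h4 : (D : ℝ) < w.length := by linarith
      exact_mod_cast h4
    · obtain ⟨w', hw', _⟩ := proj_walk w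
      have h1 := hfar j (Fin.tail x) (Fin.tail y) hx hy
      have h2 := lt_of_lt_of_le h1 (SimpleGraph.edist_le w')
      have h3 : D < w'.length := by exact_mod_cast h2
      exact lt_of_lt_of_le h3 hw'

end Pool.Agent.H21.PE
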