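import Mathlib
import Pool.Agent.H21.PE.Cube

/-!
Subdivisions: every edge gets `L` new vertices.
-/

set_option autoImplicit false

namespace Pool.Agent.H21.PE

open SimpleGraph

variable {V : Type}

/-- The edges of a graph, oriented by the rank. -/
abbrev OE (G : SimpleGraph V) (ρ : V → ℕ) : Type := {e : V × V // G.Adj e.1 e.2 ∧ ρ e.1 < ρ e.2}

/-- Vertices of the subdivision. -/
abbrev SV (G : SimpleGraph V) (ρ : V → ℕ) (L : ℕ) : Type := V ⊕ (OE G ρ × Fin L)

/-- Adjacency of the subdivision (one direction). -/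
def sadj (G : SimpleGraph V) (ρ : V → ℕ) (L : ℕ) : SV G ρ L → SV G ρ L → Prop
  | Sum.inl a, Sum.inr x => (a = x.1.1.1 ∧ x.2.1 = 0) ∨ (a = x.1.1.2 ∧ x.2.1 + 1 = L)
  | Sum.inr x, Sum.inr y => x.1 = y.1 ∧ x.2.1 + 1 = y.2.1
  | _, _ => False

/-- The subdivision. -/
def Sbd (G : SimpleGraph V) (ρ : V → ℕ) (L : ℕ) : SimpleGraph (SV G ρ L) where
  Adj x y := sadj G ρ L x y ∨ sadj G ρ L y x
  symm := ⟨fun _ _ h => h.symm⟩
  loopless := ⟨by
    rintro (a | x) h
    · rcases h with h | h <;> exact h
    · rcases h with h | h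
      · have := h.2
        omega
      · have := h.2
        omega⟩

/-- What a walk of length `ℓ` from `x` to the old vertex `a` gives in the old graph. -/
def Pr (G : SimpleGraph V) (ρ : V → ℕ) (L : ℕ) (a : V) (ℓ : ℕ) (T : V → Prop) :
    SV G ρ L → Prop
  | Sum.inl b => ∃ w' : G.Walk b a, w'.length * (L + 1) ≤ ℓ ∧ ∀ z ∈ w'.support, T z
  | Sum.inr x => (∃ w' : G.Walk x.1.1.1 a, w'.length * (L + 1) + (x.2.1 + 1) ≤ ℓ ∧
      ∀ z ∈ w'.support, T z) ∨
      (∃ w' : G.Walk x.1.1.2 a, w'.length * (L + 1) + (L - x.2.1) ≤ ℓ ∧ ∀ z ∈ w'.support, T z)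

theorem sub_walk {G : SimpleGraph V} {ρ : V → ℕ} {L : ℕ} {x y : SV G ρ L}
    (w : (Sbd G ρ L).Walk x y) : ∀ a : V, y = Sum.inl a →
      Pr G ρ L a w.length (fun z => Sum.inl z ∈ w.support) x := by
  induction w with
  | @nil x =>
    intro a ha
    subst ha
    exact ⟨Walk.nil, by simp, by simp⟩
  | @cons x x' y hadj p ih =>
    intro a ha
    have ih' := ih a ha
    have hlen : (Walk.cons hadj p).length = p.length + 1 := rfl
    have hsup : ∀ z, z ∈ p.support → z ∈ (Walk.cons hadj p).support := fun z hz => by simp [hz]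
    have hsup0 : x ∈ (Walk.cons hadj p).support := by simp
    rw [hlen]
    have hadj' := hadj
    rcases x with b | ⟨e, i⟩ <;> rcases x' with b' | ⟨e', i'⟩
    · rcases hadj' with h | h <;> exact h.elim
    · rcases hadj' with h | h
      · rcases ih' with ⟨w', h1, h2⟩ | ⟨w', h1, h2⟩
        · rcases h with ⟨h3, h4⟩ | ⟨h3, h4⟩
          · refine ⟨w'.copy h3.symm rfl, ?_, ?_⟩
            · rw [Walk.length_copy]
              omega
            · intro z hz
              rw [Walk.support_copy] at hz
              exact hsup _ (h2 z hz)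
          · have hb : G.Adj b e'.1.1 := by
              rw [h3]
              exact e'.2.1.symm
            refine ⟨Walk.cons hb w', ?_, ?_⟩
            · rw [Walk.length_cons, add_mul, one_mul]
              dsimp only at h1 h4
              omega
            · intro z hz
              rw [Walk.support_cons, List.mem_cons] at hz
              rcases hz with hz | hz
              · rw [hz]
                exact hsup0
              · exact hsup _ (h2 z hz)
        · rcases h with ⟨h3, h4⟩ | ⟨h3, h4⟩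
          · have hb : G.Adj b e'.1.2 := by
              rw [h3]
              exact e'.2.1
            refine ⟨Walk.cons hb w', ?_, ?_⟩
            · rw [Walk.length_cons, add_mul, one_mul]
              dsimp only at h1 h4
              omega
            · intro z hz
              rw [Walk.support_cons, List.mem_cons] at hz
              rcases hz with hz | hz
              · rw [hz]
                exact hsup0
              · exact hsup _ (h2 z hz)
          · refine ⟨w'.copy h3.symm rfl, ?_, ?_⟩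
            · rw [Walk.length_copy]
              omega
            · intro z hz
              rw [Walk.support_copy] at hz
              exact hsup _ (h2 z hz)
      · exact h.elim
    · rcases hadj' with h | h
      · exact h.elim
      · obtain ⟨w', h1, h2⟩ := ih'
        rcases h with ⟨h3, h4⟩ | ⟨h3, h4⟩
        · left
          refine ⟨w'.copy h3 rfl, ?_, ?_⟩
          · rw [Walk.length_copy]
            dsimp only at h4 ⊢
            omega
          · intro z hz
            rw [Walk.support_copy] at hz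
            exact hsup _ (h2 z hz)
        · right
          refine ⟨w'.copy h3 rfl, ?_, ?_⟩
          · rw [Walk.length_copy]
            dsimp only at h4 ⊢
            omega
          · intro z hz
            rw [Walk.support_copy] at hz
            exact hsup _ (h2 z hz)
    · have he : e = e' ∧ (i.1 + 1 = i'.1 ∨ i'.1 + 1 = i.1) := by
        rcases hadj' with h | h
        · exact ⟨h.1, Or.inl h.2⟩
        · exact ⟨h.1.symm, Or.inr h.2⟩
      obtain ⟨he1, he2⟩ := he
      subst he1
      rcases ih' with ⟨w', h1, h2⟩ | ⟨w', h1, h2⟩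
      · left
        refine ⟨w', ?_, fun z hz => hsup _ (h2 z hz)⟩
        dsimp only at h1 ⊢
        omega
      · right
        refine ⟨w', ?_, fun z hz => hsup _ (h2 z hz)⟩
        dsimp only at h1 ⊢
        omega

/-- A walk among the new vertices stays on one edge. -/
theorem sub_walk_new {G : SimpleGraph V} {ρ : V → ℕ} {L : ℕ} {x y : SV G ρ L}
    (w : (Sbd G ρ L).Walk x y) (h : ∀ z ∈ w.support, ∀ a, z ≠ Sum.inl a) :
    ∀ (e' : OE G ρ) (i' : Fin L), y = Sum.inr (e', i') →
      ∃ i : Fin L, x = Sum.inr (e', i) ∧ i.1 ≤ i'.1 + w.length ∧ i'.1 ≤ i.1 + w.length := by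
  induction w with
  | @nil x =>
    intro e' i' h'
    exact ⟨i', h', by simp, by simp⟩
  | @cons x x' y hadj p ih =>
    intro e' i' h'
    obtain ⟨i, hi, h1, h2⟩ := ih (fun z hz => h z (by simp [hz])) e' i' h'
    subst hi
    have hx := h x (by simp)
    have hlen : (Walk.cons hadj p).length = p.length + 1 := rfl
    rw [hlen]
    have hadj' := hadj
    rcases x with b | ⟨e, j⟩
    · exact absurd rfl (hx b)
    · have he : e = e' ∧ (j.1 + 1 = i.1 ∨ i.1 + 1 = j.1) := by
        rcases hadj' with h | h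
        · exact ⟨h.1, Or.inl h.2⟩
        · exact ⟨h.1.symm, Or.inr h.2⟩
      obtain ⟨he1, he2⟩ := he
      subst he1
      exact ⟨j, rfl, by omega, by omega⟩

/-- The rank on the subdivision. -/
def srk {G : SimpleGraph V} (ρ : V → ℕ) (L M : ℕ) (cd : OE G ρ → ℕ) : SV G ρ L → ℕ
  | Sum.inl a => ρ a
  | Sum.inr x => M + (cd x.1 * L + x.2.1)

theorem sub_WB {G : SimpleGraph V} {ρ : V → ℕ} {L M : ℕ} {cd : OE G ρ → ℕ}
    (hM : ∀ a, ρ a < M) {f : ℕ → ℕ} {C : ℕ} (hC : ∀ s, f s ≤ C * (s + 1) ^ 2) (hCL : C ≤ L + 1)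
    (hf : WB G ρ f) : WB (Sbd G ρ L) (srk ρ L M cd) (fun s => 8 * (s + 1) ^ 2) := by
  classical
  intro s v
  choose S hS hS' using hf (s / (L + 1))
  let T : V → Finset V := fun b => if s < L + 1 then {b} else S b
  have hT : ∀ b, (T b).card ≤ 4 * s ^ 2 + 1 := by
    intro b
    simp only [T]
    split_ifs with h
    · simp
    · push Not at h
      have h1 : 1 ≤ s / (L + 1) := Nat.one_le_div_iff (by omega) |>.2 h
      have h2 : s / (L + 1) * (L + 1) ≤ s := Nat.div_mul_le_self _ _
      have h3 := (hS b).trans (hC _)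
      generalize s / (L + 1) = q at *
      have h4 : (q + 1) ^ 2 ≤ 4 * q ^ 2 := by nlinarith
      calc (S b).card ≤ C * (q + 1) ^ 2 := h3
        _ ≤ (L + 1) * (4 * q ^ 2) := Nat.mul_le_mul hCL h4
        _ = 4 * ((q * (L + 1)) * q) := by ring
        _ ≤ 4 * (s * s) := by
            apply Nat.mul_le_mul_left
            apply Nat.mul_le_mul h2
            nlinarith
        _ ≤ 4 * s ^ 2 + 1 := by nlinarith
  -- old vertices reachable from an old vertex
  have hold : ∀ (b a : V) (w' : G.Walk b a), w'.length * (L + 1) ≤ s →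
      (∀ z ∈ w'.support, ρ a ≤ ρ z) → a ∈ T b := by
    intro b a w' h1 h2
    simp only [T]
    split_ifs with h
    · have h3 : w'.length = 0 := by
        by_contra hne
        have : 1 * (L + 1) ≤ w'.length * (L + 1) := Nat.mul_le_mul_right _ (by omega)
        omega
      have := Walk.eq_of_length_eq_zero h3
      simp [this]
    · exact hS' b a ⟨w', (Nat.le_div_iff_mul_le (by omega)).2 h1, h2⟩
  have hranks : ∀ {x : SV G ρ L} {a : V} (w : (Sbd G ρ L).Walk x (Sum.inl a)),
      (∀ z ∈ w.support, srk ρ L M cd (Sum.inl a) ≤ srk ρ L M cd z) →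
      ∀ z : V, Sum.inl z ∈ w.support → ρ a ≤ ρ z := fun w h z hz => h _ hz
  rcases v with b | ⟨e, j⟩
  · refine ⟨(T b).map ⟨Sum.inl, Sum.inl_injective⟩, ?_, ?_⟩
    · rw [Finset.card_map]
      have := hT b
      change (T b).card ≤ 8 * (s + 1) ^ 2
      have h9 : (s + 1) ^ 2 = s ^ 2 + 2 * s + 1 := by ring
      omega
    · rintro (a | ⟨e', i'⟩) ⟨w, hw, hw'⟩
      · obtain ⟨w', h1, h2⟩ := sub_walk w a rfl
        rw [Finset.mem_map]
        exact ⟨a, hold b a w' (h1.trans hw) (fun z hz => hranks w hw' z (h2 z hz)), rfl⟩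
      · have h1 := hw' _ w.start_mem_support
        have h2 := hM b
        simp only [srk] at h1
        omega
  · refine ⟨((T e.1.1 ∪ T e.1.2).map ⟨Sum.inl, Sum.inl_injective⟩) ∪
      ((Finset.univ.filter (fun i : Fin L => i.1 ≤ j.1 + s ∧ j.1 ≤ i.1 + s)).map
        ⟨fun i => Sum.inr (e, i), fun i i' h => by
          simp only [Sum.inr.injEq, Prod.mk.injEq] at h
          exact h.2⟩), ?_, ?_⟩
    · refine (Finset.card_union_le _ _).trans ?_
      rw [Finset.card_map, Finset.card_map]
      have h1 := Finset.card_union_le (T e.1.1) (T e.1.2)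
      have h2 := hT e.1.1
      have h3 := hT e.1.2
      have h4 : (Finset.univ.filter (fun i : Fin L => i.1 ≤ j.1 + s ∧ j.1 ≤ i.1 + s)).card ≤
          2 * s + 1 := by
        have h5 := Finset.card_le_card_of_injOn (s := Finset.univ.filter
          (fun i : Fin L => i.1 ≤ j.1 + s ∧ j.1 ≤ i.1 + s)) (t := Finset.Icc (j.1 - s) (j.1 + s))
          (fun i => i.1) (by
            intro i hi
            simp only [Finset.coe_filter, Finset.mem_univ, true_and, Set.mem_ofPred_eq] at hi
            simp only [Finset.coe_Icc, Set.mem_Icc]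
            omega) (fun a _ b _ h => Fin.ext h)
        rw [Nat.card_Icc] at h5
        omega
      nlinarith
    · rintro (a | ⟨e', i'⟩) ⟨w, hw, hw'⟩
      · rw [Finset.mem_union]
        left
        rw [Finset.mem_map]
        refine ⟨a, ?_, rfl⟩
        rw [Finset.mem_union]
        rcases sub_walk w a rfl with ⟨w', h1, h2⟩ | ⟨w', h1, h2⟩
        · left
          exact hold _ a w' (by omega) (fun z hz => hranks w hw' z (h2 z hz))
        · right
          exact hold _ a w' (by omega) (fun z hz => hranks w hw' z (h2 z hz))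
      · rw [Finset.mem_union]
        right
        have hnew : ∀ z ∈ w.support, ∀ a, z ≠ Sum.inl a := by
          rintro z hz a rfl
          have h1 := hw' _ hz
          have h2 := hM a
          simp only [srk] at h1
          omega
        obtain ⟨i, hi, h1, h2⟩ := sub_walk_new w hnew e' i' rfl
        simp only [Sum.inr.injEq, Prod.mk.injEq] at hi
        obtain ⟨hi1, hi2⟩ := hi
        subst hi1 hi2
        rw [Finset.mem_map]
        refine ⟨i', ?_, rfl⟩
        simp only [Finset.mem_filter, Finset.mem_univ, true_and]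
        omega

theorem sub_edge {G : SimpleGraph V} {ρ : V → ℕ} {L : ℕ} (hL : 1 ≤ L) (e : OE G ρ) :
    (Sbd G ρ L).edist (Sum.inl e.1.1) (Sum.inl e.1.2) ≤ ((L + 1 : ℕ) : ℕ∞) := by
  have h1 : ∀ i : ℕ, ∀ hi : i < L, (Sbd G ρ L).edist (Sum.inl e.1.1) (Sum.inr (e, ⟨i, hi⟩)) ≤
      ((i + 1 : ℕ) : ℕ∞) := by
    intro i
    induction i with
    | zero =>
      intro hi
      have hadj : (Sbd G ρ L).Adj (Sum.inl e.1.1) (Sum.inr (e, ⟨0, hi⟩)) := Or.inl (Or.inl ⟨rfl, rfl⟩)
      exact SimpleGraph.edist_le hadj.toWalk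
    | succ i ih =>
      intro hi
      have hi' : i < L := by omega
      have hadj : (Sbd G ρ L).Adj (Sum.inr (e, ⟨i, hi'⟩)) (Sum.inr (e, ⟨i + 1, hi⟩)) :=
        Or.inl ⟨rfl, rfl⟩
      calc _ ≤ _ := SimpleGraph.edist_triangle (v := Sum.inr (e, ⟨i, hi'⟩))
        _ ≤ ((i + 1 : ℕ) : ℕ∞) + 1 := add_le_add (ih hi') (by
            have := SimpleGraph.edist_le hadj.toWalk
            simpa using this)
        _ = _ := by push_cast; rfl
  have hL' : L - 1 < L := by omega
  have hadj : (Sbd G ρ L).Adj (Sum.inr (e, ⟨L - 1, hL'⟩)) (Sum.inl e.1.2) :=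
    Or.inr (Or.inr ⟨rfl, by dsimp only; omega⟩)
  calc _ ≤ _ := SimpleGraph.edist_triangle (v := Sum.inr (e, ⟨L - 1, hL'⟩))
    _ ≤ ((L - 1 + 1 : ℕ) : ℕ∞) + 1 := add_le_add (h1 _ hL') (by
        have := SimpleGraph.edist_le hadj.toWalk
        simpa using this)
    _ = ((L + 1 : ℕ) : ℕ∞) := by
        have : L - 1 + 1 = L := by omega
        rw [this]
        push_cast
        rfl

theorem sub_edist {G : SimpleGraph V} {ρ : V → ℕ} (hρ : Function.Injective ρ) {L : ℕ} (hL : 1 ≤ L)
    {a b : V} (w : G.Walk a b) :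
    (Sbd G ρ L).edist (Sum.inl a) (Sum.inl b) ≤ ((w.length * (L + 1) : ℕ) : ℕ∞) := by
  induction w with
  | nil => simp
  | @cons a b c hab p ih =>
    have h1 : (Sbd G ρ L).edist (Sum.inl a) (Sum.inl b) ≤ ((L + 1 : ℕ) : ℕ∞) := by
      rcases lt_or_gt_of_ne (fun h => G.ne_of_adj hab (hρ h)) with h | h
      · exact sub_edge hL ⟨(a, b), hab, h⟩
      · rw [SimpleGraph.edist_comm]
        exact sub_edge hL ⟨(b, a), hab.symm, h⟩
    calc _ ≤ _ := SimpleGraph.edist_triangle (v := Sum.inl b)
      _ ≤ ((L + 1 : ℕ) : ℕ∞) + ((p.length * (L + 1) : ℕ) : ℕ∞) := add_le_add h1 ih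
      _ = _ := by
        rw [Walk.length_cons]
        push_cast
        ring

theorem sub_cube {G : SimpleGraph V} {ρ : V → ℕ} (hρ : Function.Injective ρ) {L : ℕ} (hL : 1 ≤ L)
    {n r D : ℕ} (h : Cube G n r D) : Cube (Sbd G ρ L) n (r * (L + 1)) D := by
  obtain ⟨g, δ, hδ, hnear, hfar⟩ := h
  refine ⟨fun x => Sum.inl (g x), δ, hδ, ?_, ?_⟩
  · intro x y hxy
    have h1 := hnear x y hxy
    have hne : G.edist (g x) (g y) ≠ ⊤ := ne_top_of_le_ne_top (by simp) h1
    obtain ⟨w, hw⟩ := SimpleGraph.exists_walk_of_edist_ne_top hne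
    have h2 := sub_edist hρ hL w
    refine h2.trans ?_
    rw [← hw] at h1
    have h3 : w.length ≤ r := by exact_mod_cast h1
    exact_mod_cast Nat.mul_le_mul_right _ h3
  · intro i x y hx hy
    refine lt_edist (fun w => ?_)
    obtain ⟨w', h1, _⟩ := sub_walk w (g y) rfl
    have h2 := lt_of_lt_of_le (hfar i x y hx hy) (SimpleGraph.edist_le w')
    have h3 : D < w'.length := by exact_mod_cast h2
    nlinarith

end Pool.Agent.H21.PE
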