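import Mathlib
import Pool.Agent.H21.PE.Sub

/-!
Graphs with polynomial weak colouring numbers which contain coarse cubes of every dimension.
-/

set_option autoImplicit false

namespace Pool.Agent.H21.PE

open SimpleGraph Filter Topology

/-- The bound on the weak colouring numbers after `n` steps. -/
def FF (n s : ℕ) : ℕ := (s + 1) * (4 * Nat.log 2 s + 6) ^ n

theorem FF_step (n s : ℕ) :
    FF n s * (2 * Nat.log 2 s + 6) + Nat.log 2 s * (2 * s + 1) ≤ FF (n + 1) s := by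
  unfold FF
  generalize Nat.log 2 s = ℓ
  have h1 : 1 ≤ (4 * ℓ + 6) ^ n := Nat.one_le_pow _ _ (by omega)
  rw [pow_succ]
  generalize (4 * ℓ + 6) ^ n = A at *
  have h2 : ℓ * (2 * s + 1) ≤ (s + 1) * A * (2 * ℓ) := by
    calc ℓ * (2 * s + 1) ≤ ℓ * (2 * (s + 1)) := Nat.mul_le_mul_left _ (by omega)
      _ = (s + 1) * 1 * (2 * ℓ) := by ring
      _ ≤ (s + 1) * A * (2 * ℓ) := Nat.mul_le_mul_right _ (Nat.mul_le_mul_left _ h1)
  calc (s + 1) * A * (2 * ℓ + 6) + ℓ * (2 * s + 1)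
      ≤ (s + 1) * A * (2 * ℓ + 6) + (s + 1) * A * (2 * ℓ) := Nat.add_le_add_left h2 _
    _ = (s + 1) * (A * (4 * ℓ + 6)) := by ring

theorem WB_mono {V : Type} {G : SimpleGraph V} {ρ : V → ℕ} {f f' : ℕ → ℕ} (h : WB G ρ f)
    (hff : ∀ s, f s ≤ f' s) : WB G ρ f' := by
  intro s v
  obtain ⟨S, hS, hS'⟩ := h s v
  exact ⟨S, hS.trans (hff s), hS'⟩

theorem exists_good (n : ℕ) : ∀ D : ℕ, ∃ (V : Type) (_ : Finite V) (G : SimpleGraph V) (ρ : V → ℕ),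
    Function.Injective ρ ∧ WB G ρ (FF n) ∧ Cube G n n D := by
  induction n with
  | zero =>
    intro D
    refine ⟨Unit, inferInstance, ⊥, fun _ => 0, fun _ _ _ => rfl, ?_, ?_⟩
    · intro s v
      refine ⟨{()}, ?_, fun u _ => by simp⟩
      simp [FF]
    · refine ⟨fun _ => (), 1, one_pos, fun x y _ => by simp, fun i => i.elim0⟩
  | succ n ih =>
    intro D
    obtain ⟨V, hV, G, ρ, hρ, hWB, hC⟩ := ih D
    let c0 : ℕ := 2 * D + 4
    let d : V → ℕ := fun p => c0 + ρ p ^ 2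
    obtain ⟨K, hK⟩ : ∃ K, ∀ p, d p ≤ K := by
      obtain ⟨K, hK⟩ := (Set.finite_range d).bddAbove
      exact ⟨K, fun p => hK ⟨p, rfl⟩⟩
    refine ⟨BV d, inferInstance, Bun G d, rk ρ d K, rk_inj hρ hK, ?_, ?_⟩
    · exact WB_mono (bun_WB hρ (c0 := c0) (fun p => rfl) hK hWB) (FF_step n)
    · exact bun_cube hC (c0 := c0) (fun p => Nat.le_add_right _ _) hK Nat.lt_two_pow_self.le

theorem pow_bound (n : ℕ) : ∃ C : ℕ, ∀ ℓ : ℕ, (4 * ℓ + 6) ^ n ≤ C * 2 ^ ℓ := by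
  have h1 := tendsto_pow_const_mul_const_pow_of_abs_lt_one n
    (show |(1 / 2 : ℝ)| < 1 by rw [abs_of_pos] <;> norm_num)
  obtain ⟨B, hB⟩ := h1.bddAbove_range
  obtain ⟨C, hC⟩ := exists_nat_ge B
  refine ⟨6 ^ n * (C * 2), fun ℓ => ?_⟩
  have h2 : ((ℓ + 1 : ℕ) : ℝ) ^ n * (1 / 2) ^ (ℓ + 1) ≤ C := (hB ⟨ℓ + 1, rfl⟩).trans hC
  have h3 : ((ℓ + 1 : ℕ) : ℝ) ^ n ≤ C * 2 ^ (ℓ + 1) := by
    have h4 : ((ℓ + 1 : ℕ) : ℝ) ^ n * (1 / 2) ^ (ℓ + 1) = ((ℓ + 1 : ℕ) : ℝ) ^ n / 2 ^ (ℓ + 1) := by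
      rw [one_div, inv_pow, div_eq_mul_inv]
    rw [h4, div_le_iff₀ (by positivity)] at h2
    exact h2
  have h5 : (ℓ + 1) ^ n ≤ C * 2 ^ (ℓ + 1) := by exact_mod_cast h3
  calc (4 * ℓ + 6) ^ n ≤ (6 * (ℓ + 1)) ^ n := Nat.pow_le_pow_left (by omega) n
    _ = 6 ^ n * (ℓ + 1) ^ n := mul_pow _ _ _
    _ ≤ 6 ^ n * (C * 2 ^ (ℓ + 1)) := Nat.mul_le_mul_left _ h5
    _ = 6 ^ n * (C * 2) * 2 ^ ℓ := by rw [pow_succ]; ring

theorem FF_bound (n : ℕ) : ∃ C : ℕ, ∀ s : ℕ, FF n s ≤ C * (s + 1) ^ 2 := by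
  obtain ⟨C, hC⟩ := pow_bound n
  refine ⟨C, fun s => ?_⟩
  have h1 : 2 ^ Nat.log 2 s ≤ s + 1 := by
    by_cases hs : s = 0
    · simp [hs]
    · exact (Nat.pow_log_le_self 2 hs).trans (by omega)
  calc FF n s ≤ (s + 1) * (C * 2 ^ Nat.log 2 s) := Nat.mul_le_mul_left _ (hC _)
    _ ≤ (s + 1) * (C * (s + 1)) := Nat.mul_le_mul_left _ (Nat.mul_le_mul_left _ h1)
    _ = C * (s + 1) ^ 2 := by ring

theorem hom_edist {V W : Type} {G : SimpleGraph V} {G' : SimpleGraph W} (φ : G →g G') (a b : V) :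
    G'.edist (φ a) (φ b) ≤ G.edist a b := by
  rw [SimpleGraph.edist.eq_def G a b]
  refine le_iInf (fun w => ?_)
  have h1 := SimpleGraph.edist_le (w.map φ)
  rw [Walk.length_map] at h1
  exact h1

theorem iso_edist {V W : Type} {G : SimpleGraph V} {G' : SimpleGraph W} (φ : G ≃g G') (a b : V) :
    G'.edist (φ a) (φ b) = G.edist a b := by
  apply le_antisymm
  · exact hom_edist φ.toHom a b
  · have h := hom_edist φ.symm.toHom (φ a) (φ b)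
    have e1 : φ.symm.toHom (φ a) = a := φ.symm_apply_apply a
    have e2 : φ.symm.toHom (φ b) = b := φ.symm_apply_apply b
    rw [e1, e2] at h
    exact h

theorem WB_iso {V W : Type} {G : SimpleGraph V} {G' : SimpleGraph W} (φ : G ≃g G') {ρ : V → ℕ}
    {f : ℕ → ℕ} (h : WB G ρ f) : WB G' (fun x => ρ (φ.symm x)) f := by
  classical
  intro s v
  obtain ⟨S, hS, hS'⟩ := h s (φ.symm v)
  refine ⟨S.image φ, Finset.card_image_le.trans hS, ?_⟩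
  rintro u ⟨w, hw, hw'⟩
  rw [Finset.mem_image]
  refine ⟨φ.symm u, hS' _ ⟨w.map φ.symm.toHom, ?_, ?_⟩, φ.apply_symm_apply u⟩
  · rw [Walk.length_map]
    exact hw
  · intro z hz
    rw [Walk.support_map, List.mem_map] at hz
    obtain ⟨y, hy, hy'⟩ := hz
    rw [← hy']
    exact hw' y hy

theorem Cube_iso {V W : Type} {G : SimpleGraph V} {G' : SimpleGraph W} (φ : G ≃g G') {n r D : ℕ}
    (h : Cube G n r D) : Cube G' n r D := by
  obtain ⟨g, δ, hδ, h1, h2⟩ := h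
  refine ⟨fun x => φ (g x), δ, hδ, fun x y hxy => ?_, fun i x y hx hy => ?_⟩
  · rw [iso_edist]
    exact h1 x y hxy
  · rw [iso_edist]
    exact h2 i x y hx hy

/-- For every `n` there is `r` such that for every `D` there is a finite graph with weak colouring numbers
at most `8 (s + 1) ^ 2` containing a coarse `n`-cube (of mesh `r`) whose opposite faces are at
distance more than `D`. -/
theorem exists_final (n : ℕ) : ∃ r : ℕ, ∀ D : ℕ, ∃ (N : ℕ) (G : SimpleGraph (Fin N))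
    (ρ : Fin N → ℕ), WB G ρ (fun s => 8 * (s + 1) ^ 2) ∧ Cube G n r D := by
  classical
  obtain ⟨C, hC⟩ := FF_bound n
  refine ⟨n * (C + 1 + 1), fun D => ?_⟩
  obtain ⟨V, hV, G, ρ, hρ, hWB, hcube⟩ := exists_good n D
  obtain ⟨M, hM⟩ : ∃ M, ∀ p, ρ p < M := by
    obtain ⟨K, hK⟩ := (Set.finite_range ρ).bddAbove
    exact ⟨K + 1, fun p => Nat.lt_succ_of_le (hK ⟨p, rfl⟩)⟩
  have h1 : WB (Sbd G ρ (C + 1)) (srk ρ (C + 1) M (fun _ => 0)) (fun s => 8 * (s + 1) ^ 2) :=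
    sub_WB hM hC (by omega) hWB
  have h2 : Cube (Sbd G ρ (C + 1)) n (n * (C + 1 + 1)) D := sub_cube hρ (by omega) hcube
  have : Finite (SV G ρ (C + 1)) := inferInstance
  obtain ⟨N, ⟨e⟩⟩ := Finite.exists_equiv_fin (SV G ρ (C + 1))
  let φ : Sbd G ρ (C + 1) ≃g (Sbd G ρ (C + 1)).map e.toEmbedding := SimpleGraph.Iso.map e _
  exact ⟨N, (Sbd G ρ (C + 1)).map e.toEmbedding, _, WB_iso φ h1, Cube_iso φ h2⟩

end Pool.Agent.H21.PE
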